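import Pool.Agent.W5h82.Disc.Main

/-!
# Discrepancy-one colourings of random set systems: reduction from short integer solutions

An efficient algorithm as in the question, even for `p = 1/2` only, would find short integer
solutions: for random `s × N` matrices `B` modulo `2 ^ k` it would find, with high probability, a
nonzero vector `z` with entries `-1, 0, 1` and `B z = 0`, whenever `N ≥ C' (s k)² log (s k)` and
`s k ≥ C' log N`. For `N` and `2 ^ k` polynomial in `s` this is the average-case problem SIS (in the
maximum norm), which is as hard as the approximation of the shortest independent vectors of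
arbitrary lattices of dimension `s` within a polynomial factor (Ajtai; Micciancio and Regev); for
`s = 1` it is a balancing problem for `N = poly(k)` numbers with `k` bits.

Proof. Write the entries of `B` in binary; this gives `M = s k` random rows with `N` bits. Choose
the parities of the rows of a random `4 M × (N + 1)` matrix `A`, use the given rows for the first
`M` even rows (their last entry is determined by the parity), and fill up `A` with new random rows.
Then `A` is exactly uniformly distributed. If the colouring `x` of `A` has discrepancy at most one,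
then the even rows have discrepancy zero. A second colouring `y`, for new parities and new random
rows, but with the same given rows, is different from `x` and from `-x` (an odd new random row has
discrepancy larger than one for `x` with probability at least `1/32`), and `z` is half the sum or
half the difference of `x` and `y`, without the last coordinate.

All definitions are in `Pool/Agent/W5h82/Disc/Defs.lean`; `PolyTime` (Turing machines), `pairBits`
and the codes `bits` are in `Pool/Agent/NPC/Defs.lean`.
-/

set_option autoImplicit false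

namespace Pool.Agent.Results.MP_29d7aa_lc.LatticeHardness

open Pool.Agent.NPC Pool.Agent.W5h82.Disc

/-- If there is a randomized polynomial-time algorithm which with high probability finds colourings
of discrepancy at most one of random `m × n` matrices with density `p ∈ S` in the regime
`n ≥ C m² log m`, `p m ≥ C log n`, where `1/2 ∈ S` (for instance `S = [0, 1/2]`), then for some
`C' > 0` there is a randomized polynomial-time algorithm which with high probability finds short
integer solutions for random `s × N` matrices modulo `2 ^ k` in the regime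
`N ≥ C' (s k)² log (s k)`, `s k ≥ C' log N`. -/
theorem result (S : Set ℝ) (hS : (1 / 2 : ℝ) ∈ S) (C : ℝ) (hC : 0 < C)
    (h : ColouringAlgorithm S C) : ∃ C' : ℝ, 0 < C' ∧ ShortSolAlgorithm C' := by
  obtain ⟨F, ℓ, hF, hcol⟩ := h
  refine ⟨32 * C, by positivity, solve F ℓ,
    2 * (4 * Polynomial.X ^ 2 + 4 * Polynomial.X ^ 2 * Polynomial.X +
      ℓ.comp (4 * Polynomial.X ^ 2 + (Polynomial.X + 1))), polyTime_solve hF ℓ, fun ε hε => ?_⟩
  obtain ⟨T1, hT1⟩ := hcol (ε / 4) (by positivity)
  obtain ⟨T2, hT2⟩ := exists_pow_lt_of_lt_one (show (0 : ℝ) < ε / 8 by positivity)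
    (show (16 / 27 : ℝ) < 1 by norm_num)
  obtain ⟨T3, hT3⟩ := exists_pow_lt_of_lt_one (show (0 : ℝ) < ε / 4 by positivity)
    (show (31 / 32 : ℝ) < 1 by norm_num)
  refine ⟨max (max T1 (max T2 T3)) (max 4 (max ⌈1 / C⌉₊ ⌈C⌉₊)), fun s N k hT hN hk => ?_⟩
  simp only [max_le_iff] at hT
  obtain ⟨⟨h1, h2, h3⟩, h4, h5, h6⟩ := hT
  set M := s * k with hM
  have hs : 0 < s := by
    rcases Nat.eq_zero_or_pos s with h | h
    · rw [h, zero_mul] at hM; omega
    · exact h
  have m4 : (4 : ℝ) ≤ M := by exact_mod_cast h4
  have m5 : 1 / C ≤ M := (Nat.le_ceil _).trans (by exact_mod_cast h5)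
  have m6 : C ≤ M := (Nat.le_ceil _).trans (by exact_mod_cast h6)
  have m7 : 1 ≤ C * M := by
    rw [div_le_iff₀ hC] at m5
    linarith
  have hlog4 : Real.log 4 ≤ Real.log M := Real.log_le_log (by norm_num) m4
  have hlog1 : 1 ≤ Real.log 4 := by
    have h := Real.log_two_gt_d9
    have : Real.log 4 = 2 * Real.log 2 := by
      rw [show (4 : ℝ) = 2 ^ 2 by norm_num, Real.log_pow]
      norm_num
    linarith
  -- `N` is large
  have hN8 : (8 : ℝ) ≤ N := by
    refine le_trans ?_ hN
    have h7 : (1 : ℝ) * 4 ≤ C * M * M := mul_le_mul m7 m4 (by norm_num) (by positivity)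
    calc (8 : ℝ) ≤ 32 * (C * M * M) := by linarith
      _ = 32 * C * (M : ℝ) ^ 2 * 1 := by ring
      _ ≤ 32 * C * (M : ℝ) ^ 2 * Real.log M := by
        gcongr
        linarith
  have hN8' : 8 ≤ N := by exact_mod_cast hN8
  have c1 : C * ((4 * M : ℕ) : ℝ) ^ 2 * Real.log (4 * M : ℕ) ≤ (N + 1 : ℕ) := by
    push_cast
    rw [Real.log_mul (by norm_num) (by positivity)]
    have h8 : Real.log 4 + Real.log M ≤ 2 * Real.log M := by linarith
    calc C * (4 * (M : ℝ)) ^ 2 * (Real.log 4 + Real.log M) ≤
        C * (4 * (M : ℝ)) ^ 2 * (2 * Real.log M) := by gcongr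
      _ = 32 * C * (M : ℝ) ^ 2 * Real.log M := by ring
      _ ≤ N := hN
      _ ≤ N + 1 := by linarith
  have c2 : C * Real.log (N + 1 : ℕ) ≤ 1 / 2 * ((4 * M : ℕ) : ℝ) := by
    push_cast
    have h9 : Real.log ((N : ℝ) + 1) ≤ Real.log 2 + Real.log N := by
      rw [← Real.log_mul (by norm_num) (by positivity)]
      exact Real.log_le_log (by positivity) (by linarith)
    have h10 : Real.log 2 ≤ 1 := by
      have := Real.log_two_lt_d9
      linarith
    have h11 : C * Real.log N ≤ M := by
      have h12 : 0 ≤ C * Real.log N := by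
        have : 0 ≤ Real.log N := Real.log_nonneg (by linarith)
        positivity
      have h13 : 32 * C * Real.log N = 32 * (C * Real.log N) := by ring
      rw [h13] at hk
      linarith
    calc C * Real.log ((N : ℝ) + 1) ≤ C * (Real.log 2 + Real.log N) := by gcongr
      _ = C * Real.log 2 + C * Real.log N := by ring
      _ ≤ C * 1 + M := by gcongr
      _ ≤ 1 / 2 * (4 * M) := by linarith
  have hmain := hT1 (4 * M) (N + 1) (by omega) (1 / 2) hS c1 c2
  have hL : 2 * wd (4 * (s * k)) N (coins ℓ (4 * (s * k)) N) ≤
      (2 * (4 * Polynomial.X ^ 2 + 4 * Polynomial.X ^ 2 * Polynomial.X +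
      ℓ.comp (4 * Polynomial.X ^ 2 + (Polynomial.X + 1))) : Polynomial ℕ).eval (s + N + k) := by
    simp only [Polynomial.eval_mul, Polynomial.eval_add, Polynomial.eval_pow, Polynomial.eval_X,
      Polynomial.eval_comp, Polynomial.eval_ofNat, Polynomial.eval_one]
    have e1 : s * k ≤ (s + N + k) ^ 2 := by
      rw [sq]
      exact Nat.mul_le_mul (by omega) (by omega)
    have e2 : 4 * (s * k) ≤ 4 * (s + N + k) ^ 2 := Nat.mul_le_mul_left _ e1
    unfold wd coins
    refine Nat.mul_le_mul_left _ (Nat.add_le_add (Nat.add_le_add e2 ?_) ?_)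
    · exact Nat.mul_le_mul e2 (by omega)
    · exact NPC.eval_mono ℓ (by omega)
  have hfin := success F ℓ (s := s) (N := N) (k := k) hN8' hs hL
  refine le_trans ?_ hfin
  have e1 : (16 / 27 : ℝ) ^ (s * k) ≤ ε / 8 :=
    (pow_le_pow_of_le_one (by norm_num) (by norm_num) h2).trans hT2.le
  have e2 : (31 / 32 : ℝ) ^ (4 * (s * k)) ≤ ε / 4 :=
    (pow_le_pow_of_le_one (by norm_num) (by norm_num) (by omega)).trans hT3.le
  have e3 : 1 - ε / 4 ≤ colSuccess F (coins ℓ (4 * (s * k)) N) (1 / 2) (4 * (s * k)) (N + 1) :=
    hmain
  linarith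

end Pool.Agent.Results.MP_29d7aa_lc.LatticeHardness
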